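import Pool.Agent.helper78.EQ.Spec
import Pool.Agent.helper13.LD.E3
import Pool.Agent.helper85.LD.G1

set_option autoImplicit false

open Complex MeasureTheory Set Metric

namespace Pool.Agent.EQ

open Pool.Agent.helper6.LD

theorem helper53_ylogy {x : ℝ} (h : |x| ≤ 5) : |x * Real.log x| ≤ 20 := by
  have key : ∀ y : ℝ, 0 < y → y ≤ 5 → |y * Real.log y| ≤ 20 := by
    intro y hy hy5
    have h1 := Real.log_le_sub_one_of_pos hy
    have h2 : 1 - y⁻¹ ≤ Real.log y := Real.one_sub_inv_le_log_of_pos hy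
    rw [abs_le]
    constructor
    · have h3 : y * (1 - y⁻¹) ≤ y * Real.log y := mul_le_mul_of_nonneg_left h2 hy.le
      have h4 : y * (1 - y⁻¹) = y - 1 := by field_simp
      linarith
    · have h3 : y * Real.log y ≤ y * (y - 1) := mul_le_mul_of_nonneg_left h1 hy.le
      nlinarith
  rcases lt_trichotomy x 0 with hx | hx | hx
  · have h1 := key (-x) (by linarith) (by rw [abs_of_neg hx] at h; exact h)
    rw [Real.log_neg_eq_log] at h1
    rwa [neg_mul, abs_neg] at h1
  · subst hx; simp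
  · exact key x hx (by rwa [abs_of_pos hx] at h)

theorem helper53_int {δ a : ℝ} (hδ : 0 < δ) (hδ1 : δ ≤ 1 / 8) (ha : 0 ≤ a) (ha4 : a ≤ 4) :
    IntervalIntegrable (fun r : ℝ => Real.log (r - a)) volume (δ / 8) (δ / 4) ∧
    -41 ≤ ∫ r in (δ / 8)..(δ / 4), Real.log (r - a) := by
  constructor
  · have h1 : IntervalIntegrable Real.log volume (δ / 8 - a) (δ / 4 - a) :=
      intervalIntegral.intervalIntegrable_log'
    have h2 := h1.comp_sub_right a
    simpa using h2
  · rw [intervalIntegral.integral_comp_sub_right (fun r => Real.log r) a, integral_log]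
    have h1 := helper53_ylogy (x := δ / 4 - a) (by rw [abs_le]; constructor <;> linarith)
    have h2 := helper53_ylogy (x := δ / 8 - a) (by rw [abs_le]; constructor <;> linarith)
    rw [abs_le] at h1 h2
    linarith [h1.1, h2.2]

/-- choice of the radius -/
theorem helper53_radius {δ : ℝ} (hδ : 0 < δ) (hδ1 : δ ≤ 1 / 8) (S : Finset ℂ) (m : ℂ → ℕ)
    (a : ℂ → ℝ) (ha : ∀ ρ ∈ S, 0 ≤ a ρ ∧ a ρ ≤ 4) : ∃ r : ℝ, δ / 8 ≤ r ∧ r ≤ δ / 4 ∧
    (∀ ρ ∈ S, r ≠ a ρ) ∧
    -(328 / δ * ((∑ ρ ∈ S, m ρ : ℕ) : ℝ)) ≤ ∑ ρ ∈ S, (m ρ : ℝ) * Real.log (r - a ρ) := by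
  classical
  set G : ℝ → ℝ := fun r => ∑ ρ ∈ S, (m ρ : ℝ) * Real.log (r - a ρ) with hG
  have hle : δ / 8 ≤ δ / 4 := by linarith
  have hint : IntervalIntegrable G volume (δ / 8) (δ / 4) := by
    rw [hG]
    have h1 : IntervalIntegrable (∑ ρ ∈ S, fun r : ℝ => (m ρ : ℝ) * Real.log (r - a ρ)) volume
        (δ / 8) (δ / 4) := by
      refine IntervalIntegrable.sum S fun ρ hρ => ?_
      exact (helper53_int hδ hδ1 (ha ρ hρ).1 (ha ρ hρ).2).1.const_mul _
    have h2 : (∑ ρ ∈ S, fun r : ℝ => (m ρ : ℝ) * Real.log (r - a ρ)) =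
        fun r => ∑ ρ ∈ S, (m ρ : ℝ) * Real.log (r - a ρ) := by
      funext r; simp
    rwa [h2] at h1
  have hval : -(41 * ((∑ ρ ∈ S, m ρ : ℕ) : ℝ)) ≤ ∫ r in (δ / 8)..(δ / 4), G r := by
    rw [hG, intervalIntegral.integral_finsetSum (fun ρ hρ =>
      (helper53_int hδ hδ1 (ha ρ hρ).1 (ha ρ hρ).2).1.const_mul _)]
    push_cast
    rw [Finset.mul_sum, ← Finset.sum_neg_distrib]
    refine Finset.sum_le_sum fun ρ hρ => ?_
    rw [intervalIntegral.integral_const_mul]
    have h1 := (helper53_int hδ hδ1 (ha ρ hρ).1 (ha ρ hρ).2).2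
    have h2 : (0 : ℝ) ≤ m ρ := Nat.cast_nonneg _
    nlinarith
  set μ : Measure ℝ := volume.restrict (Ioc (δ / 8) (δ / 4)) with hμ
  have hvol : (volume (Ioc (δ / 8) (δ / 4))).toReal = δ / 8 := by
    rw [Real.volume_Ioc, ENNReal.toReal_ofReal (by linarith)]; ring
  have hμ0 : μ ≠ 0 := by
    intro h0
    have h1 : μ univ = 0 := by rw [h0]; simp
    rw [hμ, Measure.restrict_apply_univ, Real.volume_Ioc, ENNReal.ofReal_eq_zero] at h1
    linarith
  have hGi : Integrable G μ := by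
    rw [intervalIntegrable_iff_integrableOn_Ioc_of_le hle] at hint
    exact hint
  have hN : μ ((S.image a : Finset ℝ) ∪ (Ioc (δ / 8) (δ / 4))ᶜ : Set ℝ) = 0 := by
    refine measure_union_null ?_ ?_
    · exact (Finset.finite_toSet _).measure_zero _
    · rw [hμ, Measure.restrict_apply measurableSet_Ioc.compl, compl_inter_self, measure_empty]
  have hfm : IsFiniteMeasure μ := by
    constructor
    rw [hμ, Measure.restrict_apply_univ, Real.volume_Ioc]
    exact ENNReal.ofReal_lt_top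
  obtain ⟨r, hr1, hr2⟩ := exists_notMem_null_average_le hμ0 hGi hN
  simp only [Set.mem_union, not_or, Set.mem_compl_iff, not_not] at hr1
  refine ⟨r, hr1.2.1.le, hr1.2.2, ?_, ?_⟩
  · intro ρ hρ h
    exact hr1.1 (by simp only [Finset.coe_image]; exact ⟨ρ, hρ, h.symm⟩)
  · refine le_trans ?_ hr2
    rw [average_eq, smul_eq_mul]
    have h1 : μ.real univ = δ / 8 := by
      rw [Measure.real, hμ, Measure.restrict_apply_univ, hvol]
    have h2 : ∫ x, G x ∂μ = ∫ r in (δ / 8)..(δ / 4), G r := by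
      rw [intervalIntegral.integral_of_le hle]
    rw [h1, h2]
    have h3 : (328 : ℝ) / δ = (δ / 8)⁻¹ * 41 := by field_simp; norm_num
    rw [h3, mul_assoc, ← mul_neg]
    exact mul_le_mul_of_nonneg_left hval (by positivity)

/-- extraction of the zeros with a bound for the remaining factor -/
theorem helper53_g {f : ℂ → ℂ} {c : ℂ} {R R' B : ℝ} (hR : 0 < R) (hRR : R < R') (hB : 0 < B)
    (hf : AnalyticOnNhd ℂ f (closedBall c R')) (hc : f c ≠ 0)
    (hb : ∀ z ∈ closedBall c R', ‖f z‖ ≤ Real.exp B * ‖f c‖) :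
    ∃ (S : Finset ℂ) (g : ℂ → ℂ), (∀ ρ, ρ ∈ S ↔ ρ ∈ closedBall c R ∧ f ρ = 0) ∧
      AnalyticOnNhd ℂ g (closedBall c R') ∧
      (∀ z ∈ closedBall c R', f z = (∏ ρ ∈ S, (z - ρ) ^ analyticOrderNatAt f ρ) * g z) ∧
      (∀ z ∈ closedBall c R, g z ≠ 0) ∧
      ((∑ ρ ∈ S, analyticOrderNatAt f ρ : ℕ) : ℝ) ≤ B / Real.log (R' / R) ∧
      ∀ z ∈ ball c R, ‖g z‖ ≤ Real.exp (B * (1 + max 0 (Real.log (R / (R' - R))) /
        Real.log (R' / R))) * ‖g c‖ := by
  have hR' : 0 < R' := hR.trans hRR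
  have hlog : 0 < Real.log (R' / R) := Real.log_pos (by rw [lt_div_iff₀ hR]; linarith)
  set κ : ℝ := max 0 (Real.log (R / (R' - R))) with hκ
  have hκ0 : 0 ≤ κ := le_max_left _ _
  have hB0 : 0 ≤ B := by linarith
  obtain ⟨S, g, hS, hg, hfg, hgne⟩ := factor hR hRR hf hc
  have hN := h13_count hR hRR hB0 hf hc hb S hS
  refine ⟨S, g, hS, hg, hfg, hgne, hN, ?_⟩
  set N : ℕ := ∑ ρ ∈ S, analyticOrderNatAt f ρ with hNdef
  set P : ℂ → ℂ := fun z => ∏ ρ ∈ S, (z - ρ) ^ analyticOrderNatAt f ρ with hP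
  have hcb : c ∈ closedBall c R' := mem_closedBall_self hR'.le
  have hcR : c ∈ closedBall c R := mem_closedBall_self hR.le
  set B' : ℝ := B * (1 + κ / Real.log (R' / R)) with hB'
  have hB'pos : 0 < B' := by positivity
  have hsphere : ∀ z ∈ sphere c R', ‖g z‖ ≤ Real.exp B' * ‖g c‖ := by
    intro z hz
    have hz1 : ‖z - c‖ = R' := mem_sphere_iff_norm.mp hz
    have hz' : z ∈ closedBall c R' := sphere_subset_closedBall hz
    have hd : 0 < R' - R := by linarith
    have hPz : (R' - R) ^ N ≤ ‖P z‖ := by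
      rw [hP, hNdef]
      simp only [norm_prod, norm_pow]
      rw [← Finset.prod_pow_eq_pow_sum]
      refine Finset.prod_le_prod (fun _ _ => by positivity) fun ρ hρ => ?_
      refine pow_le_pow_left₀ hd.le ?_ _
      have h1 : ‖ρ - c‖ ≤ R := mem_closedBall_iff_norm.mp ((hS ρ).mp hρ).1
      have h2 : ‖z - c‖ ≤ ‖z - ρ‖ + ‖ρ - c‖ := by
        have := norm_add_le (z - ρ) (ρ - c)
        simpa using this
      linarith
    have hPc : ‖P c‖ ≤ R ^ N := by
      rw [hP, hNdef]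
      simp only [norm_prod, norm_pow]
      rw [← Finset.prod_pow_eq_pow_sum]
      refine Finset.prod_le_prod (fun _ _ => by positivity) fun ρ hρ => ?_
      refine pow_le_pow_left₀ (norm_nonneg _) ?_ _
      have h1 : ‖ρ - c‖ ≤ R := mem_closedBall_iff_norm.mp ((hS ρ).mp hρ).1
      rwa [norm_sub_rev]
    have h1 := hb z hz'
    rw [hfg z hz', hfg c hcb, norm_mul, norm_mul] at h1
    have h2 : (R' - R) ^ N * ‖g z‖ ≤ Real.exp B * (R ^ N * ‖g c‖) := by
      calc (R' - R) ^ N * ‖g z‖ ≤ ‖P z‖ * ‖g z‖ := by gcongr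
        _ ≤ Real.exp B * (‖P c‖ * ‖g c‖) := h1
        _ ≤ Real.exp B * (R ^ N * ‖g c‖) := by gcongr
    have h3 : ‖g z‖ ≤ Real.exp B * ((R / (R' - R)) ^ N * ‖g c‖) := by
      rw [div_pow]
      have hdN : 0 < (R' - R) ^ N := by positivity
      rw [← mul_le_mul_iff_right₀ hdN]
      refine h2.trans (le_of_eq ?_)
      field_simp
    refine h3.trans ?_
    have h4 : (R / (R' - R)) ^ N ≤ Real.exp (κ * (B / Real.log (R' / R))) := by
      have hpos : 0 < R / (R' - R) := by positivity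
      calc (R / (R' - R)) ^ N = Real.exp (N * Real.log (R / (R' - R))) := by
            rw [Real.exp_nat_mul, Real.exp_log hpos]
        _ ≤ Real.exp (κ * (B / Real.log (R' / R))) := by
            apply Real.exp_le_exp.mpr
            calc (N : ℝ) * Real.log (R / (R' - R)) ≤ N * κ := by
                  gcongr; exact le_max_right _ _
              _ = κ * N := by ring
              _ ≤ κ * (B / Real.log (R' / R)) := by gcongr
    calc Real.exp B * ((R / (R' - R)) ^ N * ‖g c‖)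
        ≤ Real.exp B * (Real.exp (κ * (B / Real.log (R' / R))) * ‖g c‖) := by gcongr
      _ = Real.exp B' * ‖g c‖ := by
          rw [← mul_assoc, ← Real.exp_add]; congr 2; rw [hB']; ring
  have hgd : DiffContOnCl ℂ g (ball c R') := by
    refine DifferentiableOn.diffContOnCl ?_
    rw [closure_ball _ hR'.ne']
    exact hg.differentiableOn
  intro z hz
  refine Complex.norm_le_of_forall_mem_frontier_norm_le isBounded_ball hgd ?_ ?_
  · intro w hw
    rw [frontier_ball _ hR'.ne'] at hw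
    exact hsphere w hw
  · exact subset_closure (ball_subset_ball hRR.le hz)

/-- lower bound for a function without zeros -/
theorem helper53_low {g : ℂ → ℂ} {c : ℂ} {R r B : ℝ} (hR : 0 < R) (hr : 0 ≤ r) (hrR : r < R)
    (hB : 0 < B) (hg : AnalyticOnNhd ℂ g (ball c R)) (h0 : ∀ z ∈ ball c R, g z ≠ 0)
    (hb : ∀ z ∈ ball c R, ‖g z‖ ≤ Real.exp B * ‖g c‖) {z : ℂ} (hz : ‖z - c‖ ≤ r) :
    Real.exp (-(2 * B * r / (R - r))) * ‖g c‖ ≤ ‖g z‖ := by
  have hcb : c ∈ ball c R := mem_ball_self hR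
  obtain ⟨h, hhc, hh, hge⟩ := h13_exists_log hR hg h0
  have hre : ∀ z ∈ ball c R, (h z).re ≤ B := by
    intro z hz
    have h1 := hb z hz
    rw [hge z hz, norm_mul, Complex.norm_exp, mul_comm (Real.exp B)] at h1
    have h2 : 0 < ‖g c‖ := norm_pos_iff.mpr (h0 c hcb)
    have h3 := le_of_mul_le_mul_left h1 h2
    exact Real.exp_le_exp.mp h3
  have hshift : DifferentiableOn ℂ (fun w => h (c + w)) (ball 0 R) := by
    intro w hw
    have : c + w ∈ ball c R := by simpa [mem_ball_iff_norm] using hw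
    exact ((hh _ this).comp_const_add c w).differentiableAt.differentiableWithinAt
  have hmap : Set.MapsTo (fun w => h (c + w)) (ball 0 R) {z | z.re ≤ B} := by
    intro w hw
    have : c + w ∈ ball c R := by simpa [mem_ball_iff_norm] using hw
    exact hre _ this
  have hw : z - c ∈ ball (0 : ℂ) R := by
    rw [mem_ball_zero_iff]; linarith
  have h5 := borelCaratheodory_zero hB hshift hmap hR hw (by simp [hhc])
  simp only [add_sub_cancel] at h5
  have h6 : 2 * B * ‖z - c‖ / (R - ‖z - c‖) ≤ 2 * B * r / (R - r) := by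
    have h7 : 0 < R - r := by linarith
    have h8 : R - r ≤ R - ‖z - c‖ := by linarith
    gcongr
  have hzb : z ∈ ball c R := by rw [mem_ball_iff_norm]; linarith
  rw [hge z hzb, norm_mul, Complex.norm_exp, mul_comm]
  refine mul_le_mul_of_nonneg_left (Real.exp_le_exp.mpr ?_) (norm_nonneg _)
  have h9 := Complex.abs_re_le_norm (h z)
  have h10 := neg_abs_le (h z).re
  linarith

theorem LBC : LBC_stmt := by
  intro δ hδ hδ1
  obtain ⟨C1, hC1, hgr⟩ := zeta_growth
  have hlam : 0 < Real.log ((7 / 4 : ℝ) / (17 / 10)) := Real.log_pos (by norm_num)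
  set lam : ℝ := Real.log ((7 / 4 : ℝ) / (17 / 10)) with hlamd
  set κ : ℝ := max 0 (Real.log ((17 / 10 : ℝ) / (7 / 4 - 17 / 10))) with hκ
  have hκ0 : 0 ≤ κ := le_max_left _ _
  set K : ℝ := 1 + |Real.log (12 * C1)| with hK
  have hK0 : 0 < K := by positivity
  refine ⟨328 / δ * (K / lam) + 2 + K / lam + 32 * (K * (1 + κ / lam)), by positivity, ?_⟩
  intro z₀ hz1 hz2 hz3
  set y : ℝ := z₀.im with hy
  have hy0 : 0 < y := by linarith
  set L : ℝ := Real.log y with hL
  have hL1 : 1 ≤ L := by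
    rw [hL, Real.le_log_iff_exp_le hy0]
    have := Real.exp_one_lt_d9
    linarith
  set c : ℂ := ⟨2, y⟩ with hc
  have hcre : c.re = 2 := rfl
  have hcim : c.im = y := rfl
  -- points of the disc
  have hdisc : ∀ s ∈ closedBall c (7 / 4), 1 / 4 ≤ s.re ∧ 1 ≤ s.im ∧ ‖s‖ ≤ 3 * y := by
    intro s hs
    rw [mem_closedBall_iff_norm] at hs
    have h1 := (Complex.abs_re_le_norm (s - c)).trans hs
    have h2 := (Complex.abs_im_le_norm (s - c)).trans hs
    rw [Complex.sub_re, hcre, abs_le] at h1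
    rw [Complex.sub_im, hcim, abs_le] at h2
    refine ⟨by linarith, by linarith, ?_⟩
    refine (Complex.norm_le_abs_re_add_abs_im s).trans ?_
    rw [abs_of_nonneg (by linarith : (0 : ℝ) ≤ s.re), abs_of_nonneg (by linarith : (0 : ℝ) ≤ s.im)]
    linarith
  have hf : AnalyticOnNhd ℂ riemannZeta (closedBall c (7 / 4)) := by
    have hU : IsOpen ({1}ᶜ : Set ℂ) := isOpen_compl_singleton
    have hd : DifferentiableOn ℂ riemannZeta ({1}ᶜ : Set ℂ) := fun s hs =>
      (differentiableAt_riemannZeta hs).differentiableWithinAt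
    refine (hd.analyticOnNhd hU).mono ?_
    intro s hs h1
    rw [Set.mem_singleton_iff] at h1
    have := (hdisc s hs).2.1
    rw [h1] at this
    norm_num at this
  have hfc : 1 / 4 ≤ ‖riemannZeta c‖ := zeta_lower (by rw [hcre])
  have hfc0 : riemannZeta c ≠ 0 := by
    intro h; rw [h, norm_zero] at hfc; norm_num at hfc
  set B : ℝ := K * L with hBd
  have hB : 0 < B := by positivity
  have hBexp : 12 * C1 * y ≤ Real.exp B := by
    have h1 : Real.log (12 * C1 * y) ≤ B := by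
      rw [Real.log_mul (by positivity) hy0.ne', hBd, hK, add_mul, one_mul, ← hL]
      have h2 := le_abs_self (Real.log (12 * C1))
      have h3 : |Real.log (12 * C1)| * 1 ≤ |Real.log (12 * C1)| * L :=
        mul_le_mul_of_nonneg_left hL1 (abs_nonneg _)
      linarith
    calc 12 * C1 * y = Real.exp (Real.log (12 * C1 * y)) := by rw [Real.exp_log (by positivity)]
      _ ≤ Real.exp B := Real.exp_le_exp.mpr h1
  have hb : ∀ z ∈ closedBall c (7 / 4), ‖riemannZeta z‖ ≤ Real.exp B * ‖riemannZeta c‖ := by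
    intro s hs
    obtain ⟨h1, h2, h3⟩ := hdisc s hs
    have h4 := hgr s (by linarith) (by rw [abs_of_nonneg (by linarith)]; exact h2)
    calc ‖riemannZeta s‖ ≤ C1 * ‖s‖ := h4
      _ ≤ C1 * (3 * y) := by gcongr
      _ = (12 * C1 * y) * (1 / 4) := by ring
      _ ≤ Real.exp B * ‖riemannZeta c‖ := by gcongr
  obtain ⟨S, g, hS, hg, hfg, hgne, hN, hgb⟩ := helper53_g (f := riemannZeta) (c := c)
    (R := 17 / 10) (R' := 7 / 4) (by norm_num) (by norm_num) hB hf hfc0 hb
  rw [← hlamd] at hN hgb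
  rw [← hκ] at hgb
  set N : ℕ := ∑ ρ ∈ S, analyticOrderNatAt riemannZeta ρ with hNd
  -- distance of z₀ and c
  have hz0c : ‖z₀ - c‖ ≤ 3 / 2 := by
    refine (Complex.norm_le_abs_re_add_abs_im _).trans ?_
    rw [Complex.sub_re, Complex.sub_im, hcre, hcim, sub_self, abs_zero, add_zero, abs_le]
    constructor <;> linarith
  obtain ⟨r, hr1, hr2, hr3, hr4⟩ := helper53_radius hδ hδ1 S (fun ρ => analyticOrderNatAt riemannZeta ρ)
    (fun ρ => ‖ρ - z₀‖) (by
      intro ρ hρ
      refine ⟨norm_nonneg _, ?_⟩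
      have h1 : ‖ρ - c‖ ≤ 17 / 10 := mem_closedBall_iff_norm.mp ((hS ρ).mp hρ).1
      have h2 : ‖ρ - z₀‖ ≤ ‖ρ - c‖ + ‖c - z₀‖ := by
        have := norm_add_le (ρ - c) (c - z₀)
        simpa using this
      rw [norm_sub_rev c z₀] at h2
      linarith)
  refine ⟨r, hr1, hr2, fun z hz => ?_⟩
  have hzc : ‖z - c‖ ≤ 16 / 10 := by
    have h2 : ‖z - c‖ ≤ ‖z - z₀‖ + ‖z₀ - c‖ := by
      have := norm_add_le (z - z₀) (z₀ - c)
      simpa using this
    rw [hz] at h2
    linarith
  have hzR : z ∈ closedBall c (7 / 4) := by rw [mem_closedBall_iff_norm]; linarith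
  -- the factor g
  have hlow := helper53_low (g := g) (c := c) (R := 17 / 10) (r := 16 / 10) (z := z)
    (B := B * (1 + κ / lam)) (by norm_num) (by norm_num) (by norm_num) (by positivity)
    (hg.mono (ball_subset_closedBall.trans (closedBall_subset_closedBall (by norm_num))))
    (fun w hw => hgne w (ball_subset_closedBall hw)) hgb hzc
  have hgc : Real.exp (-(2 + (N : ℝ))) ≤ ‖g c‖ := by
    have hcb : c ∈ closedBall c (7 / 4 : ℝ) := mem_closedBall_self (by norm_num)
    have h1 := hfg c hcb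
    have hPc : ‖∏ ρ ∈ S, (c - ρ) ^ analyticOrderNatAt riemannZeta ρ‖ ≤ 2 ^ N := by
      rw [hNd]
      simp only [norm_prod, norm_pow]
      rw [← Finset.prod_pow_eq_pow_sum]
      refine Finset.prod_le_prod (fun _ _ => by positivity) fun ρ hρ => ?_
      refine pow_le_pow_left₀ (norm_nonneg _) ?_ _
      have h1 : ‖ρ - c‖ ≤ 17 / 10 := mem_closedBall_iff_norm.mp ((hS ρ).mp hρ).1
      rw [norm_sub_rev]
      linarith
    rw [h1, norm_mul] at hfc
    have h2 : 1 / 4 ≤ 2 ^ N * ‖g c‖ := hfc.trans (by gcongr)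
    have h3 : Real.exp (-(2 + (N : ℝ))) * (4 * 2 ^ N) ≤ 1 := by
      have h4 : (4 : ℝ) ≤ Real.exp 2 := by
        have h5 := Real.add_one_le_exp (1 : ℝ)
        have h6 : Real.exp 2 = Real.exp 1 * Real.exp 1 := by rw [← Real.exp_add]; norm_num
        rw [h6]; nlinarith
      have h5 : (2 : ℝ) ^ N ≤ Real.exp N := by
        have h6 : Real.exp N = Real.exp 1 ^ N := by rw [← Real.exp_nat_mul, mul_one]
        rw [h6]
        have h7 := Real.add_one_le_exp (1 : ℝ)
        exact pow_le_pow_left₀ (by norm_num) (by linarith) N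
      rw [Real.exp_neg, Real.exp_add]
      rw [inv_mul_le_iff₀ (by positivity), mul_one]
      exact mul_le_mul h4 h5 (by positivity) (by positivity)
    have h4 : Real.exp (-(2 + (N : ℝ))) * (4 * 2 ^ N) ≤ ‖g c‖ * (4 * 2 ^ N) := by
      refine h3.trans ?_
      linarith
    exact le_of_mul_le_mul_right h4 (by positivity)
  -- the zeros
  have hprod : Real.exp (-(328 / δ * (N : ℝ))) ≤
      ‖∏ ρ ∈ S, (z - ρ) ^ analyticOrderNatAt riemannZeta ρ‖ := by
    refine (Real.exp_le_exp.mpr hr4).trans ?_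
    rw [Real.exp_sum, norm_prod]
    refine Finset.prod_le_prod (fun _ _ => (Real.exp_pos _).le) fun ρ hρ => ?_
    have h1 : r - ‖ρ - z₀‖ ≠ 0 := sub_ne_zero.mpr (hr3 ρ hρ)
    rw [Real.exp_nat_mul, Real.exp_log_eq_abs h1, norm_pow]
    refine pow_le_pow_left₀ (abs_nonneg _) ?_ _
    rw [← hz]
    have h2 := abs_norm_sub_norm_le (z - z₀) (ρ - z₀)
    simpa using h2
  rw [hfg z hzR, norm_mul]
  have hfin : y ^ (-(328 / δ * (K / lam) + 2 + K / lam + 32 * (K * (1 + κ / lam)))) ≤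
      Real.exp (-(328 / δ * (N : ℝ))) * (Real.exp (-(2 * (B * (1 + κ / lam)) * (16 / 10) /
        (17 / 10 - 16 / 10))) * Real.exp (-(2 + (N : ℝ)))) := by
    rw [Real.rpow_def_of_pos hy0, ← hL, ← Real.exp_add, ← Real.exp_add]
    refine Real.exp_le_exp.mpr ?_
    have h1 : (N : ℝ) ≤ K / lam * L := by
      refine hN.trans (le_of_eq ?_)
      rw [hBd]; ring
    have h2 : 328 / δ * (N : ℝ) ≤ 328 / δ * (K / lam * L) :=
      mul_le_mul_of_nonneg_left h1 (by positivity)
    have h3 : 2 * (B * (1 + κ / lam)) * (16 / 10) / (17 / 10 - 16 / 10) =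
        32 * (K * (1 + κ / lam)) * L := by
      rw [hBd]; norm_num; ring
    rw [h3]
    nlinarith
  refine hfin.trans ?_
  refine mul_le_mul hprod ?_ (by positivity) (norm_nonneg _)
  refine le_trans ?_ hlow
  exact mul_le_mul_of_nonneg_left hgc (Real.exp_pos _).le

end Pool.Agent.EQ
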